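import Pool.Agent.W622.RB.Defs

set_option autoImplicit false

namespace Pool.Agent.W400.RB.Deck

open Topology Metric Set
open Pool.Agent.W622.RB

/-- naturality of the monodromy -/
theorem nat_mono {U E X : Type} [TopologicalSpace U] [TopologicalSpace E] [TopologicalSpace X]
    {p : C(U, X)} {q : C(E, X)} (hp : IsCoveringMap p) (hq : IsCoveringMap q) (π : C(U, E))
    (h : ∀ u, q (π u) = p u) {x y : X} (γ : Path.Homotopic.Quotient x y) (u : p ⁻¹' {x})
    (v : q ⁻¹' {x}) (huv : π u.1 = v.1) :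
    (hq.monodromy γ v).1 = π (hp.monodromy γ u).1 := by
  obtain ⟨v, hv⟩ := v
  simp only at huv
  subst huv
  obtain ⟨γ⟩ := γ
  have hu0 : (γ : C(unitInterval, X)) 0 = p u.1 := γ.source.trans u.2.symm
  have hv0 : (γ : C(unitInterval, X)) 0 = q (π u.1) := γ.source.trans hv.symm
  have h1 : π.comp (hp.liftPath γ u.1 hu0) = hq.liftPath γ (π u.1) hv0 := by
    rw [hq.eq_liftPath_iff' hv0]
    constructor
    · funext t
      simp only [Function.comp_apply, ContinuousMap.comp_apply, h]
      exact congrFun (hp.liftPath_lifts γ u.1 hu0) t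
    · simp only [ContinuousMap.comp_apply]
      rw [hp.liftPath_zero]
  exact (congrArg (fun F : C(unitInterval, E) => F 1) h1).symm

/-- if the lift of `b` at `e` is closed then `b` is in the image -/
theorem loop_lift {E X : Type} [TopologicalSpace E] [TopologicalSpace X]
    {q : C(E, X)} (hq : IsCoveringMap q) (e : E) (b : Path.Homotopic.Quotient (q e) (q e))
    (h : (hq.monodromy b ⟨e, rfl⟩).1 = e) : ∃ a : Path.Homotopic.Quotient e e, a.map q = b := by
  obtain ⟨b⟩ := b
  have h0 : (b : C(unitInterval, X)) 0 = q e := b.source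
  have h1 : hq.liftPath b e h0 1 = e := h
  refine ⟨Path.Homotopic.Quotient.mk ⟨hq.liftPath b e h0, hq.liftPath_zero _ _ _, h1⟩, ?_⟩
  refine congrArg Path.Homotopic.Quotient.mk ?_
  ext t
  exact congrFun (hq.liftPath_lifts b e h0) t

/-- the lift of the image of a path is the path -/
theorem mono_map {E X : Type} [TopologicalSpace E] [TopologicalSpace X]
    {q : C(E, X)} (hq : IsCoveringMap q) {e e' : E} (a : Path.Homotopic.Quotient e e') :
    (hq.monodromy (a.map q) ⟨e, rfl⟩).1 = e' :=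
  congrArg Subtype.val (hq.monodromy_map a)

theorem conj_apply {X : Type} [TopologicalSpace X] {x y : X} (γ : Path x y)
    (b : FundamentalGroup X x) :
    FundamentalGroup.fundamentalGroupMulEquivOfPath γ b =
      ((Path.Homotopic.Quotient.mk γ).symm.trans
        (Path.Homotopic.Quotient.trans b (Path.Homotopic.Quotient.mk γ)) :
          Path.Homotopic.Quotient y y) := rfl

theorem st {X : Type} [TopologicalSpace X] {x y z : X} (a : Path.Homotopic.Quotient x y)
    (b : Path.Homotopic.Quotient y z) : a.symm.trans (a.trans b) = b := by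
  rw [← Path.Homotopic.Quotient.trans_assoc, Path.Homotopic.Quotient.symm_trans,
    Path.Homotopic.Quotient.refl_trans]

/-- membership in the subgroup of a cover through the monodromy -/
theorem mem_img {E X : Type} [TopologicalSpace E] [TopologicalSpace X]
    {q : C(E, X)} (hq : IsCoveringMap q) (e₀ : E) {x₀ : X} (γ : Path (q e₀) x₀)
    (h : FundamentalGroup X x₀) :
    h ∈ img q e₀ γ ↔ hq.monodromy (h : Path.Homotopic.Quotient x₀ x₀)
      (hq.monodromy (Path.Homotopic.Quotient.mk γ) ⟨e₀, rfl⟩) =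
        hq.monodromy (Path.Homotopic.Quotient.mk γ) ⟨e₀, rfl⟩ := by
  set c : Path.Homotopic.Quotient (q e₀) x₀ := Path.Homotopic.Quotient.mk γ with hc
  constructor
  · rintro ⟨_, ⟨a, rfl⟩, rfl⟩
    have h1 : (FundamentalGroup.fundamentalGroupMulEquivOfPath γ).toMonoidHom
        (FundamentalGroup.map q e₀ a) = (c.symm.trans
          (Path.Homotopic.Quotient.trans (Path.Homotopic.Quotient.map a q) c) :
            Path.Homotopic.Quotient x₀ x₀) := rfl
    rw [h1, ← hq.monodromy_trans_apply, ← Path.Homotopic.Quotient.trans_assoc,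
      Path.Homotopic.Quotient.trans_symm, Path.Homotopic.Quotient.refl_trans,
      hq.monodromy_trans_apply]
    congr 1
    exact hq.monodromy_map (Path.Homotopic.Quotient.map a q |> fun _ => a)
  · intro hm
    let b : Path.Homotopic.Quotient (q e₀) (q e₀) := (c.trans h).trans c.symm
    have h1 : hq.monodromy b ⟨e₀, rfl⟩ = ⟨e₀, rfl⟩ := by
      rw [hq.monodromy_trans_apply, hq.monodromy_trans_apply, hm, ← hq.monodromy_trans_apply,
        Path.Homotopic.Quotient.trans_symm, hq.monodromy_refl]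
      rfl
    obtain ⟨a, ha⟩ := loop_lift hq e₀ b (congrArg Subtype.val h1)
    refine ⟨FundamentalGroup.map q e₀ a, ⟨a, rfl⟩, ?_⟩
    have h2 : (FundamentalGroup.fundamentalGroupMulEquivOfPath γ).toMonoidHom
        (FundamentalGroup.map q e₀ a) = (c.symm.trans
          (Path.Homotopic.Quotient.trans (Path.Homotopic.Quotient.map a q) c) :
            Path.Homotopic.Quotient x₀ x₀) := rfl
    rw [h2, ha]
    show c.symm.trans (((c.trans h).trans c.symm).trans c) = h
    rw [Path.Homotopic.Quotient.trans_assoc, Path.Homotopic.Quotient.symm_trans,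
      Path.Homotopic.Quotient.trans_refl, st]

theorem main : Pool.Agent.W622.RB.S_deck := by
  intro X U _ _ _ _ p hp hsurj x₀
  obtain ⟨u₀, rfl⟩ := hsurj x₀
  -- lifts of `p` to covers
  have lift : ∀ (E : Type) [TopologicalSpace E] (q : C(E, X)), IsCoveringMap q → ∀ (u : U) (e : E),
      q e = p u → ∃! F : C(U, E), F u = e ∧ q ∘ F = p :=
    fun E _ q hq u e h => hq.existsUnique_continuousMap_lifts p u e h
  have uniq : ∀ (E : Type) [TopologicalSpace E] (q : C(E, X)), IsCoveringMap q →
      ∀ (F G : C(U, E)) (u : U), (∀ v, q (F v) = p v) → (∀ v, q (G v) = p v) → F u = G u →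
      F = G := by
    intro E _ q hq F G u hF hG h
    have := hq.eq_of_comp_eq F.continuous G.continuous
      (funext fun v => (hF v).trans (hG v).symm) u h
    exact ContinuousMap.ext fun v => congrFun this v
  let m : FundamentalGroup X (p u₀) → p ⁻¹' {p u₀} := fun g =>
    hp.monodromy (x := p u₀) (y := p u₀) (g⁻¹ : FundamentalGroup X (p u₀)) ⟨u₀, rfl⟩
  have hT : ∀ g : FundamentalGroup X (p u₀), ∃ F : C(U, U), F u₀ = (m g).1 ∧ ∀ v, p (F v) = p v := by
    intro g
    obtain ⟨F, ⟨h1, h2⟩, -⟩ := lift U p hp u₀ (m g).1 (m g).2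
    exact ⟨F, h1, fun v => congrFun h2 v⟩
  choose T hT0 hTp using hT
  have T_one : T 1 = ContinuousMap.id U := by
    apply uniq U p hp _ _ u₀ (hTp 1) (fun v => rfl)
    rw [hT0]
    have h1 : m 1 = ⟨u₀, rfl⟩ := by
      show hp.monodromy (x := p u₀) (y := p u₀) ((1 : FundamentalGroup X (p u₀))⁻¹ :
        FundamentalGroup X (p u₀)) ⟨u₀, rfl⟩ = _
      rw [inv_one]
      exact congrFun hp.monodromy_refl _
    rw [h1]
    rfl
  have T_mul : ∀ g h, T (g * h) = (T g).comp (T h) := by
    intro g h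
    apply uniq U p hp _ _ u₀ (hTp _) (fun v => by
      rw [ContinuousMap.comp_apply, hTp, hTp])
    rw [ContinuousMap.comp_apply, hT0, hT0]
    have h1 := nat_mono hp hp (T g) (hTp g) (x := p u₀) (y := p u₀)
      (h⁻¹ : FundamentalGroup X (p u₀)) ⟨u₀, rfl⟩ (m g) (hT0 g)
    rw [← h1]
    congr 1
    show hp.monodromy (x := p u₀) (y := p u₀) ((g * h)⁻¹ : FundamentalGroup X (p u₀)) ⟨u₀, rfl⟩ = _
    rw [mul_inv_rev]
    exact hp.monodromy_trans_apply (x := p u₀) (y := p u₀) (z := p u₀)
      (g⁻¹ : FundamentalGroup X (p u₀)) (h⁻¹ : FundamentalGroup X (p u₀)) ⟨u₀, rfl⟩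
  let act : MulAction (FundamentalGroup X (p u₀)) U :=
    { smul := fun g u => T g u
      one_smul := fun u => by
        show T 1 u = u
        rw [T_one]
        rfl
      mul_smul := fun g h u => by
        show T (g * h) u = T g (T h u)
        rw [T_mul]
        rfl }
  have free : ∀ (g : FundamentalGroup X (p u₀)) (u : U), T g u = u → g = 1 := by
    intro g u hu
    have h1 : T g = ContinuousMap.id U := uniq U p hp _ _ u (hTp g) (fun v => rfl) hu
    have h2 : (m g).1 = u₀ := by
      rw [← hT0, h1]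
      rfl
    obtain ⟨a, ha⟩ := loop_lift hp u₀ (g⁻¹ : FundamentalGroup X (p u₀)) h2
    have h3 : a = Path.Homotopic.Quotient.refl u₀ := Subsingleton.elim _ _
    have h4 : (g⁻¹ : FundamentalGroup X (p u₀)) = 1 := by
      rw [← ha, h3]
      rfl
    exact inv_eq_one.1 h4
  have trans : ∀ u u' : U, p u = p u' → ∃ g : FundamentalGroup X (p u₀), T g u = u' := by
    intro u u' huu'
    obtain ⟨F, ⟨h1, h2⟩, -⟩ := lift U p hp u u' huu'.symm
    have h2' : ∀ v, p (F v) = p v := fun v => congrFun h2 v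
    -- a path in `U` from `u₀` to `F u₀`
    let δ : Path u₀ (F u₀) := PathConnectedSpace.somePath u₀ (F u₀)
    let b : Path.Homotopic.Quotient (p u₀) (p u₀) :=
      ((Path.Homotopic.Quotient.mk δ).map p).cast rfl (h2' u₀).symm
    refine ⟨((b : FundamentalGroup X (p u₀))⁻¹ : FundamentalGroup X (p u₀)), ?_⟩
    have h3 : T ((b : FundamentalGroup X (p u₀))⁻¹ : FundamentalGroup X (p u₀)) = F := by
      apply uniq U p hp _ _ u₀ (hTp _) h2'
      rw [hT0]
      show (hp.monodromy (x := p u₀) (y := p u₀)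
        (((b : FundamentalGroup X (p u₀))⁻¹)⁻¹ : FundamentalGroup X (p u₀)) ⟨u₀, rfl⟩).1 = _
      rw [inv_inv]
      exact congrArg Subtype.val (hp.monodromy_eq_of_map_eq (γ := b) (ex := ⟨u₀, rfl⟩)
        (ey := ⟨F u₀, h2' u₀⟩) (Path.Homotopic.Quotient.mk δ) rfl)
    rw [h3, h1]
  refine ⟨act, fun g => (T g).continuous, fun g u => hTp g u, free, trans, ?_⟩
  intro P _ E _ q e₀ γ hq hE hP
  set c : Path.Homotopic.Quotient (q e₀) (p u₀) := Path.Homotopic.Quotient.mk γ with hc
  set e₁ : q ⁻¹' {p u₀} := hq.monodromy c ⟨e₀, rfl⟩ with he₁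
  obtain ⟨π, ⟨hπ0, hπ'⟩, -⟩ := lift E q hq u₀ e₁.1 e₁.2
  have hπ : ∀ v, q (π v) = p v := fun v => congrFun hπ' v
  have key : ∀ g : FundamentalGroup X (p u₀), π.comp (T g) = π ↔ g ∈ P := by
    intro g
    have h1 : π (T g u₀) = (hq.monodromy (x := p u₀) (y := p u₀)
        (g⁻¹ : FundamentalGroup X (p u₀)) e₁).1 := by
      rw [hT0]
      exact (nat_mono hp hq π hπ (x := p u₀) (y := p u₀)
        (g⁻¹ : FundamentalGroup X (p u₀)) ⟨u₀, rfl⟩ e₁ hπ0).symm
    have h2 : g ∈ P ↔ hq.monodromy (x := p u₀) (y := p u₀)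
        (g⁻¹ : FundamentalGroup X (p u₀)) e₁ = e₁ := by
      rw [← P.inv_mem_iff, hP, mem_img hq e₀ γ]
    rw [h2]
    constructor
    · intro h
      apply Subtype.ext
      rw [← h1, ← hπ0]
      exact congrArg (fun F : C(U, E) => F u₀) h
    · intro h
      apply uniq E q hq _ _ u₀ (fun v => by rw [ContinuousMap.comp_apply, hπ, hTp]) hπ
      rw [ContinuousMap.comp_apply, h1, h, hπ0]
  refine ⟨π, hπ, ?_, ?_⟩
  · intro e
    let δ : Path e₁.1 e := PathConnectedSpace.somePath e₁.1 e
    let b : Path.Homotopic.Quotient (p u₀) (q e) :=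
      ((Path.Homotopic.Quotient.mk δ).map q).cast e₁.2.symm rfl
    refine ⟨(hp.monodromy b ⟨u₀, rfl⟩).1, ?_⟩
    rw [← nat_mono hp hq π hπ b ⟨u₀, rfl⟩ e₁ hπ0]
    exact congrArg Subtype.val (hq.monodromy_eq_of_map_eq (γ := b) (ex := e₁)
        (ey := ⟨e, rfl⟩) (Path.Homotopic.Quotient.mk δ) rfl)
  · intro u u'
    constructor
    · intro h
      have h1 : p u = p u' := by rw [← hπ, ← hπ, h]
      obtain ⟨g, hg⟩ := trans u u' h1
      refine ⟨g, (key g).1 ?_, hg⟩
      apply uniq E q hq _ _ u (fun v => by rw [ContinuousMap.comp_apply, hπ, hTp]) hπ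
      rw [ContinuousMap.comp_apply, hg, h]
    · rintro ⟨g, hg, hgu⟩
      have h1 := (key g).2 hg
      have h2 : π (T g u) = π u := congrArg (fun F : C(U, E) => F u) h1
      rw [← h2]
      exact congrArg π hgu

end Pool.Agent.W400.RB.Deck
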