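import Pool.Agent.W622.RB.Defs

set_option autoImplicit false

namespace Pool.Agent.W400.RB.L1

open Topology Metric Set
open Pool.Agent.W622.RB

theorem main : Pool.Agent.W622.RB.S_l1 := by
  intro X E _ _ _ _ p hp n e
  have hconv : Convex ℝ (closedBall (0 : Fin n → ℝ) 1) := convex_closedBall _ _
  have h1 : ContractibleSpace (closedBall (0 : Fin n → ℝ) 1) :=
    hconv.contractibleSpace ⟨0, by simp⟩
  have h2 : LocallyPathConnectedSpace (closedBall (0 : Fin n → ℝ) 1) :=
    hconv.locallyPathConnectedSpace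
  have hcont : ContinuousOn (RelCWComplex.map (C := (Set.univ : Set X)) n e)
      (closedBall 0 1) := RelCWComplex.continuousOn n e
  constructor
  · intro t₀ ht₀ y hy
    let f : C(closedBall (0 : Fin n → ℝ) 1, X) :=
      ⟨fun t => RelCWComplex.map n e t, hcont.domRestrict⟩
    obtain ⟨F, ⟨hF1, hF2⟩, -⟩ := hp.existsUnique_continuousMap_lifts f ⟨t₀, ht₀⟩ y hy
    classical
    let g : (Fin n → ℝ) → E := fun t =>
      if h : t ∈ closedBall (0 : Fin n → ℝ) 1 then F ⟨t, h⟩ else y
    have hg : ∀ t (h : t ∈ closedBall (0 : Fin n → ℝ) 1), g t = F ⟨t, h⟩ := fun t h => dif_pos h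
    refine ⟨g, ⟨?_, fun t ht => ?_⟩, ?_⟩
    · rw [continuousOn_iff_continuous_domRestrict]
      have : (closedBall (0 : Fin n → ℝ) 1).domRestrict g = F := by
        funext t
        exact hg t t.2
      rw [this]
      exact F.continuous
    · rw [hg t ht]
      exact congrFun hF2 ⟨t, ht⟩
    · rw [hg t₀ ht₀]
      exact hF1
  · intro f g hf hg t₀ ht₀ h
    refine hp.eqOn_of_comp_eqOn hconv.isPreconnected hf.1 hg.1 ?_ ht₀ h
    intro t ht
    simp only [Function.comp_apply]
    rw [hf.2 t ht, hg.2 t ht]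

end Pool.Agent.W400.RB.L1
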