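import Pool.Agent.W622.RB.Defs

set_option autoImplicit false

namespace Pool.Agent.W400.RB.L2

open Topology Metric Set
open Pool.Agent.W622.RB

theorem main (hl1 : Pool.Agent.W622.RB.S_l1) : Pool.Agent.W622.RB.S_l2 := by
  intro X E _ _ _ _ p hp n e K hK
  have hcont : ContinuousOn (RelCWComplex.map (C := (Set.univ : Set X)) n e)
      (closedBall 0 1) := RelCWComplex.continuousOn n e
  obtain ⟨hex, huniq⟩ := hl1 X E p hp n e
  choose L hL1 hL2 using hex
  have hc : IsCompact (K ×ˢ closedBall (0 : Fin n → ℝ) 1) :=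
    hK.prod (isCompact_closedBall (0 : Fin n → ℝ) 1)
  have hcs : CompactSpace ↥(K ×ˢ closedBall (0 : Fin n → ℝ) 1) := isCompact_iff_compactSpace.1 hc
  let Z : Set ↥(K ×ˢ closedBall (0 : Fin n → ℝ) 1) :=
    {q | p q.1.1 = RelCWComplex.map n e q.1.2}
  have c1 : Continuous fun q : ↥(K ×ˢ closedBall (0 : Fin n → ℝ) 1) => p q.1.1 :=
    p.continuous.comp (continuous_fst.comp continuous_subtype_val)
  have c2 : Continuous fun q : ↥(K ×ˢ closedBall (0 : Fin n → ℝ) 1) =>
      RelCWComplex.map (C := (Set.univ : Set X)) n e q.1.2 :=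
    hcont.comp_continuous (continuous_snd.comp continuous_subtype_val) fun q => q.2.2
  have hZ : IsClosed Z := isClosed_eq c1 c2
  have hZc : CompactSpace Z := isCompact_iff_compactSpace.1 hZ.isCompact
  let F : Z → E := fun z => L z.1.1.2 z.1.2.2 z.1.1.1 z.2 0
  have hF : IsLocallyConstant F := by
    rw [IsLocallyConstant.iff_eventually_eq]
    intro z₀
    obtain ⟨h, hxs, hph⟩ := hp.isLocalHomeomorph z₀.1.1.1
    have hp' : ∀ y, p y = h y := fun y => congrFun hph y
    have hinj : ∀ y ∈ h.source, ∀ z ∈ h.source, p y = p z → y = z := by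
      intro y hy z hz hyz
      rw [hp', hp'] at hyz
      exact h.injOn hy hz hyz
    set f := L z₀.1.1.2 z₀.1.2.2 z₀.1.1.1 z₀.2 with hf
    have hfl : IsLift p e f := hL1 _ _ _ _
    have hf0 : f z₀.1.1.2 = z₀.1.1.1 := hL2 _ _ _ _
    have a1 : ∀ᶠ z : Z in 𝓝 z₀, z.1.1.1 ∈ h.source := by
      have : ContinuousAt (fun z : Z => z.1.1.1) z₀ :=
        (continuous_fst.comp (continuous_subtype_val.comp continuous_subtype_val)).continuousAt
      exact this (h.open_source.mem_nhds hxs)
    have a2 : ∀ᶠ z : Z in 𝓝 z₀, f z.1.1.2 ∈ h.source := by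
      have : Continuous (fun z : Z => f z.1.1.2) :=
        hfl.1.comp_continuous (continuous_snd.comp (continuous_subtype_val.comp
          continuous_subtype_val)) fun z => z.1.2.2
      exact this.continuousAt (h.open_source.mem_nhds (by
        show f z₀.1.1.2 ∈ h.source
        rw [hf0]; exact hxs))
    filter_upwards [a1, a2] with z h1 h2
    have h3 : z.1.1.1 = f z.1.1.2 := by
      apply hinj _ h1 _ h2
      rw [hfl.2 _ z.1.2.2]
      exact z.2
    have h4 := huniq _ f (hL1 z.1.1.2 z.1.2.2 z.1.1.1 z.2) hfl z.1.1.2 z.1.2.2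
      ((hL2 _ _ _ _).trans h3)
    exact h4 (by simp)
  refine hF.range_finite.subset ?_
  rintro y ⟨hy, f, hf, hf0, t, ht, hft⟩
  have hpt : p (f t) = RelCWComplex.map n e t := hf.2 t ht
  refine ⟨⟨⟨(f t, t), hft, ht⟩, hpt⟩, ?_⟩
  have h4 := huniq _ f (hL1 t ht (f t) hpt) hf t ht (hL2 t ht (f t) hpt)
  exact (h4 (by simp)).trans hf0

end Pool.Agent.W400.RB.L2
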