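import Pool.Agent.W622.RB.Defs

set_option autoImplicit false

namespace Pool.Agent.W400.RB.L3

open Topology Metric Set
open Pool.Agent.W622.RB

theorem main (hl1 : Pool.Agent.W622.RB.S_l1) : Pool.Agent.W622.RB.S_l3 := by
  intro X E _ _ _ _ p hp A hA
  rw [← isOpen_compl_iff, isOpen_iff_mem_nhds]
  intro x hx
  obtain ⟨h, hxs, hph⟩ := hp.isLocalHomeomorph x
  have hp' : ∀ y, p y = h y := fun y => congrFun hph y
  have hinj : ∀ y ∈ h.source, ∀ z ∈ h.source, p y = p z → y = z := by
    intro y hy z hz hyz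
    rw [hp', hp'] at hyz
    exact h.injOn hy hz hyz
  set B : Set X := p '' (A ∩ h.source) with hB
  have hC : IsClosed (h.targetᶜ ∪ B) := by
    rw [CWComplex.closed (Set.univ : Set X) _ (Set.subset_univ _)]
    intro n e
    have hcont : ContinuousOn (RelCWComplex.map (C := (Set.univ : Set X)) n e)
      (closedBall 0 1) := RelCWComplex.continuousOn n e
    let D : Set (Fin n → ℝ) := {t | t ∈ closedBall (0 : Fin n → ℝ) 1 ∧
      RelCWComplex.map n e t ∈ h.targetᶜ ∪ B}
    have hD : IsClosed D := by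
      rw [← closure_subset_iff_isClosed]
      intro t₀ ht₀
      have hb : t₀ ∈ closedBall (0 : Fin n → ℝ) 1 := by
        have h1 : closure D ⊆ closedBall (0 : Fin n → ℝ) 1 :=
          closure_minimal (fun t ht => ht.1) isClosed_closedBall
        exact h1 ht₀
      by_contra hc
      have h2 : RelCWComplex.map n e t₀ ∈ h.target ∧ RelCWComplex.map n e t₀ ∉ B := by
        constructor
        · by_contra h3
          exact hc ⟨hb, Or.inl h3⟩
        · intro h3
          exact hc ⟨hb, Or.inr h3⟩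
      obtain ⟨h3, h4⟩ := h2
      set y₀ : E := h.symm (RelCWComplex.map n e t₀) with hy₀
      have h5 : y₀ ∈ h.source := h.map_target h3
      have h6 : p y₀ = RelCWComplex.map n e t₀ := by
        rw [hp', hy₀]
        exact h.right_inv h3
      have h7 : y₀ ∉ A := fun h8 => h4 ⟨y₀, ⟨h8, h5⟩, h6⟩
      obtain ⟨f, hf, hf0⟩ := (hl1 X E p hp n e).1 t₀ hb y₀ h6
      have hAf := hA n e f hf
      have h8 : h.source ∩ (A ∩ f '' closedBall 0 1)ᶜ ∈ 𝓝 (f t₀) := by
        rw [hf0]
        exact Filter.inter_mem (h.open_source.mem_nhds h5)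
          (hAf.isOpen_compl.mem_nhds fun h9 => h7 h9.1)
      have h9 := hf.1 t₀ hb h8
      have h10 : ∀ᶠ t in 𝓝[closedBall (0 : Fin n → ℝ) 1] t₀, t ∉ D := by
        filter_upwards [h9, self_mem_nhdsWithin] with t ht htb hD
        have h11 : f t ∈ h.source := ht.1
        have h12 : f t ∉ A := fun h13 => ht.2 ⟨h13, t, htb, rfl⟩
        have h13 : p (f t) = RelCWComplex.map n e t := hf.2 t htb
        rcases hD.2 with h14 | h14
        · apply h14
          rw [← h13, hp']
          exact h.map_source h11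
        · obtain ⟨a, ⟨ha1, ha2⟩, ha3⟩ := h14
          have := hinj a ha2 (f t) h11 (by rw [ha3, h13])
          exact h12 (this ▸ ha1)
      rw [eventually_nhdsWithin_iff] at h10
      have h11 : ∀ᶠ t in 𝓝 t₀, t ∉ D := by
        filter_upwards [h10] with t ht hD
        exact ht hD.1 hD
      rw [mem_closure_iff_frequently] at ht₀
      exact ht₀ h11
    have hDc : IsCompact D := (isCompact_closedBall (0 : Fin n → ℝ) 1).of_isClosed_subset hD
      fun t ht => ht.1
    have h1 : (h.targetᶜ ∪ B) ∩ RelCWComplex.closedCell n e = RelCWComplex.map n e '' D := by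
      ext z
      constructor
      · rintro ⟨hz, t, ht, rfl⟩
        exact ⟨t, ⟨ht, hz⟩, rfl⟩
      · rintro ⟨t, ⟨ht, hz⟩, rfl⟩
        exact ⟨hz, t, ht, rfl⟩
    rw [h1]
    exact (hDc.image_of_continuousOn (hcont.mono fun t ht => ht.1)).isClosed
  have hxB : p x ∉ B := by
    rintro ⟨a, ⟨ha1, ha2⟩, ha3⟩
    exact hx (hinj a ha2 x hxs ha3 ▸ ha1)
  have h1 : (h.targetᶜ ∪ B)ᶜ ∈ 𝓝 (p x) := by
    apply hC.isOpen_compl.mem_nhds
    rintro (h2 | h2)
    · apply h2
      rw [hp']
      exact h.map_source hxs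
    · exact hxB h2
  filter_upwards [h.open_source.mem_nhds hxs, p.continuous.continuousAt h1] with y hy1 hy2 hy3
  exact hy2 (Or.inr ⟨y, ⟨hy3, hy1⟩, rfl⟩)

end Pool.Agent.W400.RB.L3
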