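import Pool.Agent.W622.RB.Defs

set_option autoImplicit false

namespace Pool.Agent.W400.RB.Uni

open Topology Metric Set
open Pool.Agent.W622.RB

theorem st {X : Type} [TopologicalSpace X] {x y z : X} (a : Path.Homotopic.Quotient x y)
    (b : Path.Homotopic.Quotient y z) : a.symm.trans (a.trans b) = b := by
  rw [← Path.Homotopic.Quotient.trans_assoc, Path.Homotopic.Quotient.symm_trans,
    Path.Homotopic.Quotient.refl_trans]

theorem ts {X : Type} [TopologicalSpace X] {x y z : X} (a : Path.Homotopic.Quotient x y)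
    (b : Path.Homotopic.Quotient x z) : a.trans (a.symm.trans b) = b := by
  rw [← Path.Homotopic.Quotient.trans_assoc, Path.Homotopic.Quotient.trans_symm,
    Path.Homotopic.Quotient.refl_trans]

theorem main : Pool.Agent.W622.RB.S_uni := by
  intro X E _ _ p hp hE e₀ x₀ γ himg
  have h1 : ∀ g : FundamentalGroup E e₀, g = 1 := by
    intro g
    have h2 : (FundamentalGroup.fundamentalGroupMulEquivOfPath γ)
        (FundamentalGroup.map p e₀ g) = 1 := by
      rw [← Subgroup.mem_bot, ← himg]
      exact ⟨FundamentalGroup.map p e₀ g, ⟨g, rfl⟩, rfl⟩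
    rw [map_eq_one_iff _ (MulEquiv.injective _)] at h2
    have h3 := hp.injective_path_homotopic_map e₀ e₀
    apply h3
    have h4 : FundamentalGroup.map p e₀ (1 : FundamentalGroup E e₀) = 1 := map_one _
    exact h2.trans h4.symm
  rw [simply_connected_iff_paths_homotopic]
  refine ⟨hE, fun x y => ⟨fun α β => ?_⟩⟩
  let δ : Path.Homotopic.Quotient e₀ x := Path.Homotopic.Quotient.mk (PathConnectedSpace.somePath e₀ x)
  have h2 : ((δ.trans α).trans β.symm).trans δ.symm = Path.Homotopic.Quotient.refl e₀ :=
    h1 (((δ.trans α).trans β.symm).trans δ.symm)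
  have h3 : α = δ.symm.trans ((((δ.trans α).trans β.symm).trans δ.symm).trans (δ.trans β)) := by
    simp [st]
  rw [h3, h2]
  simp [st]

end Pool.Agent.W400.RB.Uni
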