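import Pool.Agent.W622.RB.Defs

set_option autoImplicit false

namespace Pool.Agent.W400.RB.L4

open Topology Metric Set
open Pool.Agent.W622.RB

theorem t2_of_cov {X E : Type} [TopologicalSpace X] [T2Space X] [TopologicalSpace E] (p : C(E, X))
    (hp : IsCoveringMap p) : T2Space E := by
  refine ⟨fun x y hxy => ?_⟩
  by_cases h : p x = p y
  · exact hp.isSeparatedMap x y h hxy
  · obtain ⟨u, v, hu, hv, hxu, hyv, huv⟩ := t2_separation h
    exact ⟨p ⁻¹' u, p ⁻¹' v, hu.preimage p.continuous, hv.preimage p.continuous, hxu, hyv,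
      huv.preimage p⟩

theorem main (hl1 : Pool.Agent.W622.RB.S_l1) (hl2 : Pool.Agent.W622.RB.S_l2)
    (hl3 : Pool.Agent.W622.RB.S_l3) : Pool.Agent.W622.RB.S_l4 := by
  intro X E _ _ _ _ p hp
  have hT2 : T2Space E := t2_of_cov p hp
  refine ⟨hT2, ?_⟩
  have z0 : ∀ n : ℕ, (0 : Fin n → ℝ) ∈ closedBall (0 : Fin n → ℝ) 1 := fun n => by simp
  have hex : ∀ (n : ℕ) (i : CovCell p n), ∃ f, IsLift p i.1.1 f ∧ f 0 = i.1.2 := fun n i =>
    (hl1 X E p hp n i.1.1).1 0 (z0 n) i.1.2 i.2
  choose f hf hf0 using hex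
  have huniq : ∀ (n : ℕ) (i : CovCell p n) (g : (Fin n → ℝ) → E), IsLift p i.1.1 g →
      ∀ t ∈ closedBall (0 : Fin n → ℝ) 1, f n i t = g t → EqOn (f n i) g (closedBall 0 1) :=
    fun n i g hg t ht h => (hl1 X E p hp n i.1.1).2 _ _ (hf n i) hg t ht h
  -- any lift comes from a cell of the cover
  have hcell : ∀ (n : ℕ) (e : RelCWComplex.cell (Set.univ : Set X) n) (g : (Fin n → ℝ) → E),
      IsLift p e g → ∃ i : CovCell p n, i.1.1 = e ∧ i.1.2 = g 0 ∧
        EqOn (f n i) g (closedBall 0 1) := by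
    intro n e g hg
    refine ⟨⟨(e, g 0), hg.2 0 (z0 n)⟩, rfl, rfl, ?_⟩
    exact huniq n _ g hg 0 (z0 n) (hf0 n _)
  have hsub : ∀ n : ℕ, ball (0 : Fin n → ℝ) 1 ⊆ closedBall 0 1 := fun n => ball_subset_closedBall
  have hsrc : ∀ (n : ℕ) (e : RelCWComplex.cell (Set.univ : Set X) n),
      (RelCWComplex.map n e).source = ball 0 1 := fun n e => RelCWComplex.source_eq n e
  have hinv : ∀ (n : ℕ) (i : CovCell p n), ∀ t ∈ ball (0 : Fin n → ℝ) 1,
      (RelCWComplex.map n i.1.1).symm (p (f n i t)) = t := by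
    intro n i t ht
    rw [(hf n i).2 t (hsub n ht)]
    apply (RelCWComplex.map n i.1.1).left_inv
    rw [hsrc]
    exact ht
  let mp : ∀ n, CovCell p n → PartialEquiv (Fin n → ℝ) E := fun n i =>
    { toFun := f n i
      invFun := fun z => (RelCWComplex.map n i.1.1).symm (p z)
      source := ball 0 1
      target := f n i '' ball 0 1
      map_source' := fun t ht => ⟨t, ht, rfl⟩
      map_target' := by
        rintro _ ⟨t, ht, rfl⟩
        rw [hinv n i t ht]
        exact ht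
      left_inv' := fun t ht => hinv n i t ht
      right_inv' := by
        rintro _ ⟨t, ht, rfl⟩
        exact congrArg (f n i) (hinv n i t ht) }
  have hmp : ∀ n i, (mp n i : (Fin n → ℝ) → E) = f n i := fun n i => rfl
  refine ⟨mp, ?_, fun n i => ⟨hf n i, hf0 n i⟩⟩
  refine { source_eq := fun n i => rfl
           cont := fun n i => (hf n i).1
           cont_symm := ?_
           disj := ?_
           bd := ?_
           closed := ?_
           union := ?_ }
  · intro n i
    have h1 : ContinuousOn (RelCWComplex.map n i.1.1).symm (RelCWComplex.map n i.1.1).target :=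
      RelCWComplex.continuousOn_symm n i.1.1
    refine h1.comp p.continuous.continuousOn ?_
    rintro _ ⟨t, ht, rfl⟩
    rw [(hf n i).2 t (hsub n ht)]
    apply (RelCWComplex.map n i.1.1).map_source
    rw [hsrc]
    exact ht
  · rintro ⟨n, i⟩ - ⟨m, j⟩ - hne
    show Disjoint (f n i '' ball 0 1) (f m j '' ball 0 1)
    rw [Set.disjoint_left]
    rintro _ ⟨t, ht, rfl⟩ ⟨s, hs, hst⟩
    by_cases hc : (⟨n, i.1.1⟩ : Σ n, RelCWComplex.cell (Set.univ : Set X) n) = ⟨m, j.1.1⟩
    · obtain ⟨⟨e, y⟩, hy⟩ := i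
      obtain ⟨⟨e', y'⟩, hy'⟩ := j
      simp only at hc
      rw [Sigma.mk.injEq] at hc
      obtain ⟨rfl, hc⟩ := hc
      have hc' : e = e' := eq_of_heq hc
      subst hc'
      have h1 : t = s := by
        have a1 := hinv n ⟨(e, y), hy⟩ t ht
        have a2 := hinv n ⟨(e, y'), hy'⟩ s hs
        simp only at a1 a2
        rw [← a1, ← a2, hst]
      subst h1
      have h2 := huniq n ⟨(e, y), hy⟩ (f n ⟨(e, y'), hy'⟩) (hf n ⟨(e, y'), hy'⟩) t (hsub n ht)
        hst.symm (z0 n)
      have h3 : y = y' := (hf0 n ⟨(e, y), hy⟩).symm.trans (h2.trans (hf0 n ⟨(e, y'), hy'⟩))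
      subst h3
      exact hne rfl
    · have hd := RelCWComplex.disjoint_openCell_of_ne hc
      rw [Set.disjoint_left] at hd
      apply hd (a := p (f n i t))
      · exact ⟨t, ht, ((hf n i).2 t (hsub n ht)).symm⟩
      · refine ⟨s, hs, ?_⟩
        rw [← (hf m j).2 s (hsub m hs), hst]
  · intro n i
    obtain ⟨I, hI⟩ := CWComplex.mapsTo (C := (Set.univ : Set X)) n i.1.1
    have hK : IsCompact (f n i '' sphere 0 1) :=
      (isCompact_sphere _ _).image_of_continuousOn ((hf n i).1.mono sphere_subset_closedBall)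
    have hfin : ∀ m, {c : CovCell p m | c.1.1 ∈ I m ∧ ∃ g, IsLift p c.1.1 g ∧ g 0 = c.1.2 ∧
        ∃ t ∈ closedBall (0 : Fin m → ℝ) 1, g t ∈ f n i '' sphere 0 1}.Finite := by
      intro m
      have h1 : (⋃ e ∈ I m, (fun y => (e, y)) '' {y : E | p y = RelCWComplex.map m e 0 ∧
          ∃ g, IsLift p e g ∧ g 0 = y ∧ ∃ t ∈ closedBall (0 : Fin m → ℝ) 1,
            g t ∈ f n i '' sphere 0 1}).Finite := by
        refine Set.Finite.biUnion (I m).finite_toSet fun e _ => ?_
        exact (hl2 X E p hp m e _ hK).image _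
      refine (h1.preimage (f := fun c : CovCell p m => c.1)
        (Subtype.val_injective.injOn)).subset ?_
      rintro c ⟨hc1, g, hg, hg0, t, ht, hgt⟩
      simp only [Set.mem_preimage, Set.mem_iUnion]
      exact ⟨c.1.1, hc1, c.1.2, ⟨c.2, g, hg, hg0, t, ht, hgt⟩, rfl⟩
    refine ⟨fun m => (hfin m).toFinset, ?_⟩
    intro s hs
    have h1 := hI hs
    rw [← (hf n i).2 s (sphere_subset_closedBall hs)] at h1
    simp only [Set.mem_iUnion] at h1
    obtain ⟨m, hm, e, he, t, ht, hte⟩ := h1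
    obtain ⟨g, hg, hgt⟩ := (hl1 X E p hp m e).1 t ht (f n i s) hte.symm
    obtain ⟨c, hc1, hc2, hc3⟩ := hcell m e g hg
    simp only [Set.mem_iUnion]
    refine ⟨m, hm, c, ?_, t, ht, ?_⟩
    · rw [Set.Finite.mem_toFinset]
      refine ⟨by rw [hc1]; exact he, g, by rw [hc1]; exact hg, hc2.symm, t, ht, ?_⟩
      rw [hgt]
      exact ⟨s, hs, rfl⟩
    · rw [hmp, hc3 ht, hgt]
  · intro A hA
    refine hl3 X E p hp A fun n e g hg => ?_
    obtain ⟨c, hc1, hc2, hc3⟩ := hcell n e g hg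
    have h1 := hA n c
    rw [hmp, hc3.image_eq] at h1
    exact h1
  · rw [Set.eq_univ_iff_forall]
    intro x
    have h1 : p x ∈ (⋃ (n : ℕ) (j : RelCWComplex.cell (Set.univ : Set X) n),
        RelCWComplex.closedCell n j) := by
      have h2 := RelCWComplex.union (C := (Set.univ : Set X))
      rw [Set.empty_union] at h2
      rw [h2]
      trivial
    simp only [Set.mem_iUnion] at h1
    obtain ⟨n, e, t, ht, hte⟩ := h1
    obtain ⟨g, hg, hgt⟩ := (hl1 X E p hp n e).1 t ht x hte.symm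
    obtain ⟨c, hc1, hc2, hc3⟩ := hcell n e g hg
    simp only [Set.mem_iUnion]
    exact ⟨n, c, t, ht, by rw [hmp, hc3 ht, hgt]⟩

end Pool.Agent.W400.RB.L4
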